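import Pool.Agent.H848.HM.Main
import Pool.Graph.R_pool_sql_team_seeded_63374d34.N916.GB.Num

/-!
# The Bloch–Kato rank formula for Hilbert newforms of all parallel even weights over totally real fields
# `ℚ(√N(M), √e_1, …, √e_n)`, at the prime 2

`K = ℚ(√-7)` has the ring of integers `ℤ[ω]`, `ω² = ω - 2`; `(2) = (ω) (1 - ω)`. For `M ∈ ℤ[ω]` let `E_M` be the
quadratic twist by `M` of `X_0(49)`, with the Hecke character `ψ_M` over `K`, and let the Galois group of `K` act on
the `2`-adic Tate module of `E_M` by `κ`, `κ'`. The theta series `f_{M, 2k}` of `ψ_M^{2k-1}` is a newform over `ℚ` of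
weight `2 k`, whose character is the quadratic character of the real field `ℚ(√N(M))`, `N(M) = M M̄`. Let `F` be a
totally real field `ℚ(√N(M), √e_1, …, √e_n)` of degree `2 ^ (n + 1)`, `e_i > 0` rational integers. Over `F` the
character becomes trivial: the base change `g` of `f_{M, 2k}` to `F` is a Hilbert newform of parallel weight `2 k` with
trivial central character, as in the problem, with coefficients in `K`. It is the theta series of a Hecke character
of the CM field `K F`, and it is not a base change of a form with trivial character, nor of a rational twist of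
`X_0(49)`, if `M` is not rational. For `k = 1` it belongs to an elliptic curve over `F`, the quadratic twist of
`X_0(49)` by `m = M + M̄ + 2 √N(M) ∈ F`; indeed `m = M (1 + √N(M) / M) ^ 2`.

* The representation `V` of `Gal(ℚ̄/F)` attached to `g` (normalised as in the problem) is the restriction of the
  representation of `Gal(ℚ̄/ℚ)` that is induced by the character `κ^k κ'^(1-k)` of `Gal(ℚ̄/K)`.
* `L(V, s)` over `F` is the `L`-function of the Hecke character `ψ_M^{2k-1}` over `K F`, hence the product over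
  `T ⊆ {1, …, n}` of `L(ψ_D^{2k-1}, s + k) L(ψ_{D̄}^{2k-1}, s + k)`, where `D = M ∏_{i ∈ T} e_i` up to squares (the
  twist by `N(M)` turns `M` into `M² M̄`). The second factor is `L(conj ψ_D^{2k-1}, s + k)`, since `X_0(49)` is
  defined over `ℚ`. So `L(V, s) = ∏_T L_{D, k}(s + k)`, where `L_{D, k}` is the `L`-function over `K` with the factors
  `(1 - (α^{2k-1} + β^{2k-1}) N v^{-s} + N v^{2k-1-2s})⁻¹`, `α + β = a_v(E_D)`, `α β = N v`.

The class consists of all the squarefree `D ≡ 1 mod 8` in `ℤ[ω]`, prime to `√-7`. `D` is good if the matrix `M_S` over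
`𝔽_2` of the quadratic residue symbols of its primary prime factors is not singular, and very good if also the matrix
bordered by the symbols of the two primes above two is not singular. We prove:

1. If all the `M ∏_{i ∈ T} e_i` are good (up to squares) then the rank formula holds for `p = 2` and all the Hilbert
newforms of parallel weight `2 k` over `F` attached to `M`, for all odd `k`; if they are very good it holds for all
`k ≥ 1`, that is in all parallel even weights: `L(V, s)` is entire and of order `0` at `s = 0`, and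
`H^1_f(F, V) = H^0(F, V) = 0`.
2. For all `e_1, …, e_n` (positive, squarefree, `1` modulo `8`, prime to `7`, independent modulo squares) the natural
density, in the class ordered by the norm, of the `M` with the first property is exactly `c ^ (2 ^ n)`, and with the
second property exactly `(c / 2) ^ (2 ^ n)`, `c = ∏ (1 - 2^{-i}) = 0.288…`. For `n = 0`: over the real quadratic fields
`ℚ(√N(M))`, the proportions are `0.288…` and `0.144…`.

New in the proof, besides the results on the characters over `K`: the conjugate of a good `D` is good, because its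
matrix is the transpose of `M_S` by the reciprocity law; so the conditions for the field `K F` of degree
`2 ^ (n + 1)` over `K` are only `2 ^ n` conditions, and the descent of the Selmer conditions from `K F` to `F`.
-/

set_option autoImplicit false

namespace Pool.Agent.Results.MP_6e2fc3_nt.AllParallelWeights

open Filter Topology
open scoped Classical
open Pool.Agent.H519.KW.Fd (OK Adm Good VeryGood norm Density)
open Pool.Agent.H848.HM

/-- The data `M`, `e_1, …, e_n` have the property `P`: the `e_i` are positive, the integers `N(M), e_1, …, e_n` are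
independent modulo squares, so that `F = ℚ(√N(M), √e_1, …, √e_n)` is a totally real field of degree `2 ^ (n + 1)`, and
all the `M ∏_{i ∈ T} e_i`, `T ⊆ {1, …, n}`, are, up to nonzero squares, elements `D` of the class with `P D`. -/
def Data (P : OK → Prop) (M : OK) {n : ℕ} (e : Fin n → ℤ) : Prop :=
  (∀ i, 0 < e i) ∧ Ind (Fin.cons (norm M) e : Fin (n + 1) → ℤ) ∧
  ∀ T : Finset (Fin n), ∃ D z : OK, z ≠ 0 ∧ Adm D ∧ P D ∧ M * ∏ i ∈ T, (e i : OK) = D * z ^ 2

/-- The `e_i` are positive, squarefree, `1` modulo `8`, prime to `7`, and independent modulo squares. -/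
def InClass {n : ℕ} (e : Fin n → ℤ) : Prop :=
  (∀ i, 0 < e i ∧ Squarefree (e i) ∧ e i % 8 = 1 ∧ ¬ 7 ∣ e i) ∧ Ind e

/-- The function `Λ` is the `L`-function `L(V, s)` over `F = ℚ(√N(M), √e_1, …, √e_n)`, with the centre `s = 0`. -/
def IsLOverF (M : OK) {n : ℕ} (e : Fin n → ℤ) (k : ℕ) (Λ : ℂ → ℂ) : Prop :=
  ∃ L : Finset (Fin n) → ℂ → ℂ,
    (∀ T, ∃ D z : OK, z ≠ 0 ∧ Adm D ∧ M * ∏ i ∈ T, (e i : OK) = D * z ^ 2 ∧ IsL D k (L T)) ∧
    ∀ s, Λ s = ∏ T, L T (s + k)

/-- `s_0, …, s_n` are square roots of `N(M), e_1, …, e_n`. -/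
def Roots (M : OK) {n : ℕ} (e : Fin n → ℤ) (s : Fin (n + 1) → QBar) : Prop :=
  ∀ i, s i ^ 2 = (((Fin.cons (norm M) e : Fin (n + 1) → ℤ) i : ℤ) : QBar)

/-- The rank formula at `p = 2` for the Hilbert newform of parallel weight `2 k` over `F = ℚ(s_0, …, s_n)`: the
`L`-function is entire and of order zero at the centre, and `H^1_f(F, V) = H^0(F, V) = 0` for the representation `V`
induced by `κ^k κ'^(1-k)`. -/
def RankFormula {w : QBar} (κ κ' : Chr w) (τ : GQ) (M : OK) {n : ℕ} (e : Fin n → ℤ)
    (s : Fin (n + 1) → QBar) (k : ℕ) : Prop :=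
  (∃ Λ : ℂ → ℂ, Differentiable ℂ Λ ∧ IsLOverF M e k Λ ∧ analyticOrderAt Λ 0 = 0) ∧
    SelmerZero (GalF s) (chi κ κ' k) τ ∧ InvariantsZero (GalF s) (chi κ κ' k) τ

/-- The curve `E_M` is isomorphic to the elliptic curve `ED w (tw M)`, the Galois group of `K` acts on its `2`-adic
Tate module by `κ`, `κ'`, and the rank formula holds over `F = ℚ(√N(M), √e_1, …, √e_n)` for all the weights `2 k`,
`k ≥ 1`, such that `k` has the property `C`. -/
def AllWeights (C : ℕ → Prop) (M : OK) {n : ℕ} (e : Fin n → ℤ) : Prop :=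
  ∀ w : QBar, w ^ 2 = w - 2 →
  Iso (EK w M) (ED w (tw M)) ∧ (ED w (tw M)).IsElliptic ∧
  ∃ κ κ' : Chr w, TateModule (tw M) κ κ' ∧
    ∀ τ : GQ, τ w = 1 - w → ∀ s : Fin (n + 1) → QBar, Roots M e s → ∀ k : ℕ, 1 ≤ k → C k →
      RankFormula κ κ' τ M e s k

/-- The proportion `(1 - 1/2) (1 - 1/4) (1 - 1/8) ⋯`. -/
noncomputable def c : ℝ := ∏' i : ℕ, (1 - (1 / 2 : ℝ) ^ (i + 1))

section proof

lemma ne_zero {P : OK → Prop} {M : OK} {n : ℕ} {e : Fin n → ℤ} (h : Data P M e) : M ≠ 0 := by
  obtain ⟨D, z, hz, hD, -, he⟩ := h.2.2 ∅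
  rw [Finset.prod_empty, mul_one] at he
  rw [he]
  exact mul_ne_zero hD.1.ne_zero (pow_ne_zero 2 hz)

lemma all_weights {P : OK → Prop} {C : ℕ → Prop}
    (hP : ∀ k, 1 ≤ k → C k → ∀ D, Adm D → P D → Gk k D ∧ Gk k (cj D))
    {M : OK} {n : ℕ} {e : Fin n → ℤ} (h : Data P M e) : AllWeights C M e := by
  intro w hw
  obtain ⟨h1, h2, κ, κ', h3, h4, -⟩ := sel_all hw (ne_zero h)
  refine ⟨h1, h2, κ, κ', h3, fun τ hτ s hs k hk hC => ?_⟩
  have hG : ∀ T : Finset (Fin n), ∃ D z : OK, z ≠ 0 ∧ Adm D ∧ (Gk k D ∧ Gk k (cj D)) ∧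
      M * ∏ i ∈ T, (e i : OK) = D * z ^ 2 := by
    intro T
    obtain ⟨D, z, hz, hD, hPD, he⟩ := h.2.2 T
    exact ⟨D, z, hz, hD, hP k hk hC D hD hPD, he⟩
  refine ⟨?_, h4 n e k hk hG τ hτ s hs⟩
  exact exists_Λ hk fun T => by
    obtain ⟨D, z, hz, hD, hPD, he⟩ := hG T
    exact ⟨D, z, hz, hD, hPD.1, he⟩

end proof

/-- **The Bloch–Kato rank formula in all parallel even weights.** For good data it holds for the prime `2` and all the
Hilbert newforms of parallel weight `2 k`, `k` odd, over `F = ℚ(√N(M), √e_1, …, √e_n)` attached to `M`, and for very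
good data for all `k ≥ 1`. For all `e_1, …, e_n` the natural density, in the set of the `M` of the class that are prime
to the `e_i`, ordered by the norm, of the good data is `c ^ (2 ^ n)` and of the very good data `(c / 2) ^ (2 ^ n)`;
`c = 0.288…`. -/
theorem result :
    (∀ (n : ℕ) (M : OK) (e : Fin n → ℤ), Data Good M e → AllWeights Odd M e) ∧
    (∀ (n : ℕ) (M : OK) (e : Fin n → ℤ), Data VeryGood M e → AllWeights (fun _ => True) M e) ∧
    (∀ (n : ℕ) (e : Fin n → ℤ), InClass e →
      Density (∏ i, (e i : OK)) (fun M => Data Good M e) (c ^ 2 ^ n) ∧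
      Density (∏ i, (e i : OK)) (fun M => Data VeryGood M e) ((c / 2) ^ 2 ^ n)) ∧
    0.2887 < c ∧ c < 0.2889 :=
  ⟨fun _ _ _ h => all_weights (fun _ _ hk _ hD hG => gk_good hk hD hG) h,
    fun _ _ _ h => all_weights (fun k _ _ _ hD hG => gk_very k hD hG) h,
    fun _ _ h => ⟨dens_hil h (Pool.Agent.H519.KW.Dn.dens_one (inClass_int h)),
      dens_hil h (Pool.Agent.H519.KW.Dn.dens_two (inClass_int h))⟩,
    Pool.Agent.N916.GB.eta_bounds.1, Pool.Agent.N916.GB.eta_bounds.2⟩

end Pool.Agent.Results.MP_6e2fc3_nt.AllParallelWeights
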