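import Mathlib
import Pool.Agent.H503.Psi3
import Pool.Agent.H503.TwSel

/-!
# The Bloch–Kato rank formula for the Hilbert newforms with complex multiplication by `k(√-3)` that
# come from `y² + y = x³` and the ring class characters inside arbitrary Galois 2-extensions

Let `F₀` be `ℚ(√-3)` or `ℚ(ζ₉)`, and let `L/F₀` be ANY Galois extension of 2-power degree in which
above the primes other than three only primes ramify modulo which `2` is not a cube.  Let `k` be ANY
TOTALLY REAL subfield of `L` (of any class number; in general `k` is not normal over `ℚ`, and its normal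
closure has a nonabelian group; `[k : ℚ]` may be divisible by three), `K = k(√-3)`, `F ⊆ L` an extension
of `K` that is Galois over `k`, and `χ` ANY character of `Gal(F/K)`.

The forms.  Let `E : y² + y = x³` and let `ψ` be the Hecke character of `K` with
`L(E/K, s) = L(ψ, s) L(ψ^c, s)`.  The theta series `g = g_χ` of `ψ χ` is a Hilbert newform over `k` of
parallel weight `2`; its central character is trivial if and only if `χ` is trivial on the image of the
transfer, that is `χ(σ) χ(c σ c⁻¹) = 1` for all `σ` in `Gal(F/K)`, `c` in `Gal(F/k)` not in `Gal(F/K)`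
(`χ` is a ring class character of `K/k`; there are infinitely many, of orders `2ⁿ` and, for `F₀ = ℚ(ζ₉)`,
`3 · 2ⁿ`).  For `χ = 1` this is the base change of the newform of level `27`, for `χ` quadratic and invariant
its quadratic twists, and in general the field of Hecke eigenvalues of `g_χ` is a field of arbitrarily
large degree.  These `g_χ` are exactly the Hilbert newforms `g` over `k` such that
`V_{g,λ}` restricted to the Galois group of `F` is isomorphic to `V_ℓ(E)`.

The L-function.  In the normalisation of the problem, `L(g_χ, s) = L(ψ χ, s + 1)`, the Euler product over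
the primes `u` of `K` of `(1 - (ψ χ)(u) N(u)^(-s-1))⁻¹`, with the value zero at the primes at which `ψ χ` is
ramified.  At the prime `u`, not dividing three, `ψ(u)` is the image in `ℂ` of the Frobenius endomorphism
`π` of `E` modulo `u` in `End(E) = ℤ[ω]`, `ω (x, y) = (z x, y)`: the element of norm `N(u)` and trace
`N(u) + 1 - #E(𝓞 K / u)` which is zero modulo `u` under `ω ↦ z`.  At the primes above three `ψ χ` is
ramified (`E` has additive reduction over all the fields `F` at the primes above three).  The average of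
`χ` over the Frobenius elements at a prime of `F` above `u` is `χ(u)` if `χ` is unramified at `u`, and `0`
otherwise.  Both choices of `z` are allowed, so both `ψ` and `ψ^c` are covered.

The Galois representation.  `V_{g_χ,λ}` is induced from the character `ψ_λ χ` of the Galois group of
`K`, and `V₂(E) ⊗ Ind χ` is the sum of `V_{g_χ,λ}` and `V_{g_χ',λ}`, `χ' = χ⁻¹` (for the ring class
characters).  If `T` is the number field generated by the values of `χ` and `R` the representation of
`Gal(F/k)` over `ℤ` on a lattice of the `T`-vector space `Ind χ`, then `V₂(E) ⊗ R` is the sum of the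
`V₂(E) ⊗ (Ind χ)_λ` over the places `λ` of `T` above two.  So `H¹_f(k, V₂(E) ⊗ R) = 0` says that
`H¹_f(k, V_{g_χ,λ}) = 0` for all `λ` above two.  `V₂(E) ⊗ R` is the rational Tate module of the abelian
variety `A = E ⊗ R` over `k`, and by Bloch and Kato `H¹_f(k_v, V₂(A))` is the image of the Kummer map of
`A(k_v)` for all the finite places `v`; this is the local condition used below.

Theorem: both sides of the formula of Bloch and Kato are zero for all these `g_χ` and all `λ` above two:
`L(ψ χ, s)` continues analytically to a neighbourhood of `1` (to `ℂ` if `Gal(F/K)` is a 2-group) and is not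
zero at `1`, and `H¹_f(k, V₂(E) ⊗ R) = 0` for all the representations `R` of `Gal(F/k)` over `ℤ`.

The proof.  For the L-functions we continue the work of the project AW of the starting library
(`Pool.Agent.K7.H70.AW`, by helper70 and others, on `L(E/K, ρ, s)`): the Euler products of `ψ` alone
(not of `ψ + ψ^c`) times an arbitrary representation are continued by Artin induction, and their value at
`1` is a factor of a value which is not zero.  The Selmer groups: descent from `F` to `k`
(`Pool.Agent.H76.BKT`, by helper76, here over totally real base fields).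
-/

set_option autoImplicit false

open NumberField IsDedekindDomain WeierstrassCurve
open scoped Classical

namespace Pool.Agent.Results.MP_6e2fc3_nt.CMFormsTwoExtensions

/-- Above the prime numbers other than three, only primes modulo which `2` is not a cube ramify in
`L/F₀`: if `σ ≠ 1` lies in the inertia group of the prime `w` of `L`, and `w` does not divide three, then
`2` is not a cube modulo the prime of `F₀` below `w`. -/
def GoodRam (F₀ L : Type) [Field F₀] [NumberField F₀] [Field L] [NumberField L] [Algebra F₀ L] :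
    Prop :=
  ∀ (w : HeightOneSpectrum (𝓞 L)) (σ : Gal(L/F₀)), (3 : 𝓞 L) ∉ w.asIdeal →
    (∀ x : 𝓞 L, σ • x - x ∈ w.asIdeal) → σ ≠ 1 → ∀ α : 𝓞 F₀, α ^ 3 - 2 ∉ w.asIdeal.under (𝓞 F₀)

/-! ### The L-functions -/

section defs

variable {K : Type} [Field K] [NumberField K]

/-- The number of the elements of the residue field of `u`. -/
noncomputable def nm (u : HeightOneSpectrum (𝓞 K)) : ℕ := Nat.card (𝓞 K ⧸ u.asIdeal)

/-- The number of the affine points of `E : y² + y = x³` over the residue field of `u`. -/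
noncomputable def pts (u : HeightOneSpectrum (𝓞 K)) : ℕ :=
  Nat.card {p : (𝓞 K ⧸ u.asIdeal) × (𝓞 K ⧸ u.asIdeal) // p.2 ^ 2 + p.2 = p.1 ^ 3}

/-- The ring `ℤ[ω]` with `ω² = -1 - ω`; the element `⟨a, b⟩` is `a + b ω`. -/
abbrev Eis : Type := QuadraticAlgebra ℤ (-1) (-1)

/-- The image of `a + b ω` in `ℂ`, for `ω ↦ (-1 + √3 i) / 2`. -/
noncomputable def toComplex (x : Eis) : ℂ := x.re + x.im * (⟨-1 / 2, Real.sqrt 3 / 2⟩ : ℂ)

/-- `π` is the Frobenius endomorphism of `E` modulo `u`, an element of `ℤ[ω]`: its norm is `N(u)`, its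
trace is `N(u) + 1 - #E(𝓞 K / u)`, and it is zero modulo `u` under `ω ↦ z`. -/
def IsFrobEnd (z : 𝓞 K) (u : HeightOneSpectrum (𝓞 K)) (π : Eis) : Prop :=
  π.re ^ 2 - π.re * π.im + π.im ^ 2 = nm u ∧ 2 * π.re - π.im = (nm u : ℤ) - pts u ∧
    (π.re : 𝓞 K) + π.im * z ∈ u.asIdeal

variable {F : Type} [Field F] [NumberField F] [Algebra K F]

/-- `w u` is a prime of `F` above `u`, for all the primes `u` of `K`. -/
def Above (w : HeightOneSpectrum (𝓞 K) → HeightOneSpectrum (𝓞 F)) : Prop :=
  ∀ u, (w u).asIdeal.comap (algebraMap (𝓞 K) (𝓞 F)) = u.asIdeal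

/-- `σ` is a Frobenius element at the prime `w` of `F` above `u`: `σ x ≡ x ^ N(u)` modulo `w`. -/
def IsFrobenius (u : HeightOneSpectrum (𝓞 K)) (w : HeightOneSpectrum (𝓞 F)) (σ : Gal(F/K)) : Prop :=
  ∀ x : 𝓞 F, σ • x - x ^ nm u ∈ w.asIdeal

/-- The average of `χ` over the Frobenius elements at `w`: `χ(u)` if `χ` is unramified at `u`, and `0`
otherwise. -/
noncomputable def charValue (χ : Gal(F/K) →* ℂˣ) (u : HeightOneSpectrum (𝓞 K))
    (w : HeightOneSpectrum (𝓞 F)) : ℂ :=
  ((Nat.card {σ : Gal(F/K) // IsFrobenius u w σ} : ℂ))⁻¹ *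
    ∑ σ : {σ : Gal(F/K) // IsFrobenius u w σ}, ((χ σ.1 : ℂˣ) : ℂ)

/-- The value of `ψ χ` at the prime `u`: zero if `u` divides three. -/
noncomputable def heckeValue (χ : Gal(F/K) →* ℂˣ)
    (w : HeightOneSpectrum (𝓞 K) → HeightOneSpectrum (𝓞 F)) (π : HeightOneSpectrum (𝓞 K) → Eis)
    (u : HeightOneSpectrum (𝓞 K)) : ℂ :=
  if (3 : 𝓞 K) ∈ u.asIdeal then 0 else toComplex (π u) * charValue χ u (w u)

/-- `U` is a connected open set which contains `1` and the half plane `Re s > 3/2`. -/
def Region (U : Set ℂ) : Prop :=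
  IsOpen U ∧ IsConnected U ∧ {s : ℂ | (3 / 2 : ℝ) < s.re} ⊆ U ∧ (1 : ℂ) ∈ U

/-- `L(ψ χ, s)`, the Euler product of the factors `(1 - (ψ χ)(u) N(u)^(-s))⁻¹` for `Re s > 3/2`, continues
analytically to a connected open set which contains `1`, and to `ℂ` if `Gal(F/K)` is a 2-group, and it is
not zero at `1`. -/
def CentralValue (χ : Gal(F/K) →* ℂˣ)
    (w : HeightOneSpectrum (𝓞 K) → HeightOneSpectrum (𝓞 F)) (π : HeightOneSpectrum (𝓞 K) → Eis) :
    Prop :=
  ∃ (U : Set ℂ) (Φ : ℂ → ℂ), Region U ∧ (IsPGroup 2 Gal(F/K) → U = Set.univ) ∧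
    AnalyticOnNhd ℂ Φ U ∧ (∀ s : ℂ, (3 / 2 : ℝ) < s.re →
      HasProd (fun u : HeightOneSpectrum (𝓞 K) =>
        (1 - heckeValue χ w π u * (nm u : ℂ) ^ (-s))⁻¹) (Φ s)) ∧ Φ 1 ≠ 0

end defs

/-! ### The Selmer groups -/

section selmer

/-- The curve `E : y² + y = x³` over `k`. -/
def E (k : Type) [Field k] : WeierstrassCurve k := ⟨0, 0, 1, 0, 0⟩

/-- The absolute Galois group of `k`, with the Krull topology. -/
abbrev AbsGal (k : Type) [Field k] : Type := AlgebraicClosure k ≃ₐ[k] AlgebraicClosure k

/-- The group `E(M)`, for a field `M ⊇ k`. -/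
def Pt (k M : Type) [Field k] [Field M] [Algebra k M] : Type := ((E k).baseChange M).toAffine.Point

/-- The group law on `E(M)`. -/
noncomputable instance instPt (k M : Type) [Field k] [Field M] [Algebra k M] :
    AddCommGroup (Pt k M) :=
  @Affine.Point.instAddCommGroup M _ ((E k).baseChange M).toAffine (Classical.decEq M)

/-- The map on points given by a homomorphism of fields. -/
noncomputable def act {k M M' : Type} [Field k] [Field M] [Field M'] [Algebra k M] [Algebra k M']
    (φ : M →ₐ[k] M') : Pt k M →+ Pt k M' :=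
  @Affine.Point.map k k M M' _ _ _ _ (E k) (Classical.decEq M) (Classical.decEq M') _ _ _ _ _ _ _ φ

variable {k F : Type} [Field k] [Field F] [Algebra k F] {m : ℕ}

/-- `V₂(E)`: the sequences `x₀, x₁, …` of points of `E` over the algebraic closure, of `2`-power order,
with `2 xₙ₊₁ = xₙ` (`xₙ` is the class of `2⁻ⁿ x` in `V₂(E) / T₂(E) = E[2 ^ ∞]`). -/
def InV (x : ℕ → Pt k (AlgebraicClosure k)) : Prop :=
  ∀ n, 2 • x (n + 1) = x n ∧ ∃ a : ℕ, (2 ^ a : ℕ) • x n = 0

/-- The restriction of `σ` to the subfield `j(F)` of the algebraic closure is `g`. -/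
def Restr (j : F →ₐ[k] AlgebraicClosure k) (σ : AbsGal k) (g : Gal(F/k)) : Prop :=
  ∀ x, σ (j x) = j (g x)

/-- `c` is a continuous cocycle of the absolute Galois group of `k` with values in the
representation `V₂(E) ⊗ R`, that is `V₂(E)^m` with `σ (x₁, …, x_m) = R(g) (σ x₁, …, σ x_m)`, where `g` is
the restriction of `σ` to `F`. -/
structure IsCocycle (j : F →ₐ[k] AlgebraicClosure k)
    (R : Gal(F/k) →* Matrix (Fin m) (Fin m) ℤ)
    (c : AbsGal k → Fin m → ℕ → Pt k (AlgebraicClosure k)) : Prop where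
  cont : ∀ i n, IsLocallyConstant fun σ => c σ i n
  mem : ∀ σ i, InV (c σ i)
  mul : ∀ σ τ g, Restr j σ g → ∀ i n,
    c (σ * τ) i n = c σ i n + ∑ l, R g i l • act σ.toAlgHom (c τ l n)

/-- The local condition over the extension `kv` of `k`: the restriction of `c` to the absolute Galois
group of `kv` is in the image of the Kummer map of the abelian variety `A = E ⊗ R`: it is
`σ ↦ σ Q - Q` for a sequence of points `Q₀, Q₁, …` of `A` over the algebraic closure of `kv` with
`2 Qₙ₊₁ = Qₙ`. -/
def LocalCondition (j : F →ₐ[k] AlgebraicClosure k) (R : Gal(F/k) →* Matrix (Fin m) (Fin m) ℤ)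
    (kv : Type) [Field kv] [Algebra k kv]
    (c : AbsGal k → Fin m → ℕ → Pt k (AlgebraicClosure k)) : Prop :=
  ∀ ι : AlgebraicClosure k →ₐ[k] AlgebraicClosure kv,
    ∃ Q : Fin m → ℕ → Pt k (AlgebraicClosure kv), (∀ i n, 2 • Q i (n + 1) = Q i n) ∧
    ∀ (τ : AbsGal kv) (σ : AbsGal k), (∀ x, τ (ι x) = ι (σ x)) → ∀ g, Restr j σ g → ∀ i n,
      act ι (c σ i n) = ∑ l, R g i l • act (τ.toAlgHom.restrictScalars k) (Q l n) - Q i n

/-- `c` is a coboundary: `c σ = σ x - x` for an element `x` of `V₂(E) ⊗ R`. -/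
def IsCoboundary (j : F →ₐ[k] AlgebraicClosure k) (R : Gal(F/k) →* Matrix (Fin m) (Fin m) ℤ)
    (c : AbsGal k → Fin m → ℕ → Pt k (AlgebraicClosure k)) : Prop :=
  ∃ x : Fin m → ℕ → Pt k (AlgebraicClosure k), (∀ i, InV (x i)) ∧
    ∀ σ g, Restr j σ g → ∀ i n, c σ i n = ∑ l, R g i l • act σ.toAlgHom (x l n) - x i n

/-- The Bloch–Kato Selmer group `H¹_f(k, V₂(E) ⊗ R)` is zero. -/
def SelmerZero [NumberField k] (j : F →ₐ[k] AlgebraicClosure k)
    (R : Gal(F/k) →* Matrix (Fin m) (Fin m) ℤ) : Prop :=
  ∀ c : AbsGal k → Fin m → ℕ → Pt k (AlgebraicClosure k), IsCocycle j R c →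
    (∀ v : HeightOneSpectrum (𝓞 k), LocalCondition j R (v.adicCompletion k) c) →
    IsCoboundary j R c

end selmer

/-! ### The proof -/

theorem toComplex_eq (x : Eis) : toComplex x = Pool.Agent.Y692.QS.toC x := by
  rw [Pool.Agent.Y692.QS.toC_apply]
  rfl

/-- a totally complex field -/
theorem totallyComplex {F : Type} [Field F] [NumberField F] {z : F} (hz : z * z = -1 - z) :
    IsTotallyComplex F := by
  refine ⟨fun v => ?_⟩
  rw [← InfinitePlace.not_isReal_iff_isComplex]
  intro hv
  obtain ⟨φ, hφ⟩ := hv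
  have h1 : ComplexEmbedding.IsReal φ := hφ.1
  have h2 := congrArg (fun e : F →+* ℂ => e z) h1
  have h3 : (φ z) * φ z = -1 - φ z := by
    rw [← map_mul, hz, map_sub, map_neg, map_one]
  have h4 : (starRingEnd ℂ) (φ z) = φ z := h2
  obtain ⟨r, hr⟩ := Complex.conj_eq_iff_real.1 h4
  rw [hr] at h3
  have h5 : r * r = -1 - r := by exact_mod_cast h3
  nlinarith [sq_nonneg (2 * r + 1)]

/-- **Main theorem.**  Let `F₀` be `ℚ(√-3)` or `ℚ(ζ₉)`, let `L/F₀` be a Galois extension whose degree
is a power of two, in which above the prime numbers other than three only primes ramify modulo which `2`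
is not a cube, let `F` be a subfield of `L` and `k ⊆ K` subfields of `F` such that `F/k` is Galois, `k` is
totally real, `[K : k] = 2` and `K` contains a primitive cube root of unity `z`.  Let `E : y² + y = x³`.

1. The Frobenius endomorphisms `π u` of `E` modulo the primes `u` of `K` exist, and for ALL characters
`χ` of `Gal(F/K)` the function `L(ψ χ, s)` continues analytically to a neighbourhood of `1` (to `ℂ` if
`Gal(F/K)` is a 2-group) and is not zero at `1`.
2. For ALL representations `R` of `Gal(F/k)` over `ℤ` the Selmer group `H¹_f(k, V₂(E) ⊗ R)` is zero. -/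
theorem result : ∀ (F₀ L k K F : Type) [Field F₀] [NumberField F₀]
    [Field L] [NumberField L] [Algebra F₀ L] [IsGalois F₀ L] [Field k] [NumberField k]
    [IsTotallyReal k] [Field K] [NumberField K] [Field F] [NumberField F] [Algebra k K] [Algebra k F]
    [Algebra K F] [IsScalarTower k K F] [IsGalois k F] [Algebra F L],
    (IsCyclotomicExtension {3} ℚ F₀ ∨ IsCyclotomicExtension {9} ℚ F₀) →
    (∃ n : ℕ, Module.finrank F₀ L = 2 ^ n) → GoodRam F₀ L → Module.finrank k K = 2 →
    ∀ z : 𝓞 K, z * z = -1 - z →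
    (∀ w : HeightOneSpectrum (𝓞 K) → HeightOneSpectrum (𝓞 F), Above w →
      ∃ π : HeightOneSpectrum (𝓞 K) → Eis, (∀ u, (3 : 𝓞 K) ∉ u.asIdeal → IsFrobEnd z u (π u)) ∧
        ∀ χ : Gal(F/K) →* ℂˣ, CentralValue χ w π) ∧
    ∀ (j : F →ₐ[k] AlgebraicClosure k) (m : ℕ) (R : Gal(F/k) →* Matrix (Fin m) (Fin m) ℤ),
      SelmerZero j R := by
  intro F₀ L k K F _ _ _ _ _ _ _ _ _ _ _ _ _ _ _ _ _ _ _ hF₀ hn hg _ z hz
  have hG : Pool.Agent.K7.H56.P.Gd F₀ L := Pool.Agent.K7.H56.P.gd_of fun w hw h3 α hα => by
    obtain ⟨σ, hσ, hin⟩ := hw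
    refine hg w σ (fun h => h3 ?_) hin hσ α hα
    show algebraMap (𝓞 F₀) (𝓞 L) 3 ∈ w.asIdeal
    rw [map_ofNat]
    exact h
  have hgal : IsGalois K F := IsGalois.tower_top_of_isGalois k K F
  refine ⟨fun w hw => ?_, fun j m R c hc hl => ?_⟩
  · obtain ⟨π, h1, h2⟩ := Pool.Agent.H503.Psi.final (F₀ := F₀) (L := L) hF₀ hn hG hz (w := w) hw
    refine ⟨π, fun u hu => h1 u hu, fun χ => ?_⟩
    obtain ⟨U, Φ, g1, g2, g3, g4, g5, g6, g7, g8⟩ := h2 (Fin 1)
      ((Matrix.scalar (Fin 1)).toMonoidHom.comp ((Units.coeHom ℂ).comp χ))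
    refine ⟨U, Φ, ⟨g1, g2, g3, g4⟩, g5, g6, fun s hs => ?_, g8⟩
    have h5 := g7 s hs
    convert h5 using 2 with u
    unfold heckeValue
    by_cases h : (3 : 𝓞 K) ∈ u.asIdeal
    · rw [if_pos h, if_pos h, zero_mul, sub_zero, inv_one]
    · rw [if_neg h, if_neg h, Matrix.det_fin_one, toComplex_eq]
      congr 1
      rw [Matrix.sub_apply, Matrix.one_apply_eq, Matrix.smul_apply, smul_eq_mul]
      congr 1
      have h6 : Pool.Agent.H503.Psi.meanM
          ((Matrix.scalar (Fin 1)).toMonoidHom.comp ((Units.coeHom ℂ).comp χ)) u (w u) 0 0 =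
          charValue χ u (w u) := by
        unfold Pool.Agent.H503.Psi.meanM charValue
        rw [Matrix.smul_apply, Matrix.sum_apply, smul_eq_mul]
        congr 1
      rw [h6]
      unfold nm
      ring
  · have hs : Pool.Agent.K7.H70.ST.SelV F := by
      rcases hF₀ with hM | hM
      · exact Pool.Agent.K7.H73.L3.selv3 (F := F₀) (K := L) (k := F) hn hG
      · exact Pool.Agent.K7.H70.ST.selv9 (M := F₀) (K := L) (k := F) hn hG
    have hzF : (algebraMap K F z) * algebraMap K F z = -1 - algebraMap K F z := by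
      have h := congrArg (fun t : 𝓞 K => algebraMap K F (t : K)) hz
      simpa using h
    have hc2 : IsTotallyComplex F := totallyComplex hzF
    exact Pool.Agent.H503.Psi.tw_zero_c hs ⟨hc.cont, hc.mem, hc.mul⟩ hl

end Pool.Agent.Results.MP_6e2fc3_nt.CMFormsTwoExtensions
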